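import Mathlib

set_option autoImplicit false

/-!
# The local loop lemma for odd cycles

Let `R` be a symmetric relation on `A`, `f` an idempotent `n`-ary operation compatible with `R`
and `o ∈ A` such that the set of neighbours of `o` absorbs `{o}` with respect to `f`.  If there are
two walks `e`, `g` starting in `o` with `R (e m) (g m)` for some `m ≥ 1` (for instance if `o` lies on
an odd cycle) then `R` has a loop.
-/

namespace Pool.Agent.U337.LLL

variable {A : Type*} {n : ℕ}

/-- an honest walk: starts in `o` at time `0` -/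
def Hon (R : A → A → Prop) (o : A) (x : ℕ → A) : Prop := x 0 = o ∧ ∀ t, R (x t) (x (t + 1))

/-- a delayed walk: it is in `o` at time `1` -/
def Del (R : A → A → Prop) (o : A) (x : ℕ → A) : Prop := x 1 = o ∧ ∀ t, R (x t) (x (t + 1))

/-- `w` delayed by `j` steps (before `w` starts we go back and forth between `o` and `c`) -/
def dl (o c : A) (j : ℕ) (w : ℕ → A) : ℕ → A := fun t =>
  if j ≤ t then w (t - j) else if (j - t) % 2 = 0 then o else c

/-- apply `f` at every time `≥ 1`, start in `o` -/
def node (o : A) (f : (Fin n → A) → A) (X : Fin n → ℕ → A) : ℕ → A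
  | 0 => o
  | t + 1 => f fun c => X c (t + 1)

section basic

variable {R : A → A → Prop} {o c : A} (hs : ∀ x y, R x y → R y x) (hoc : R o c)

include hs hoc

lemma dl_walk {w : ℕ → A} (hw : Hon R o w) (j t : ℕ) :
    R (dl o c j w t) (dl o c j w (t + 1)) := by
  unfold dl
  rcases Nat.lt_trichotomy (t + 1) j with h | h | h
  · have a1 : ¬ j ≤ t := by omega
    have a2 : ¬ j ≤ t + 1 := by omega
    rcases Nat.mod_two_eq_zero_or_one (j - t) with h2 | h2
    · have h3 : ¬ (j - (t + 1)) % 2 = 0 := by omega
      simp only [if_neg a1, if_neg a2, if_pos h2, if_neg h3]; exact hoc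
    · have h3 : (j - (t + 1)) % 2 = 0 := by omega
      have h4 : ¬ (j - t) % 2 = 0 := by omega
      simp only [if_neg a1, if_neg a2, if_neg h4, if_pos h3]; exact hs _ _ hoc
  · rw [if_neg (by omega), if_neg (by omega), if_pos (by omega)]
    have : t + 1 - j = 0 := by omega
    rw [this, hw.1]; exact hs _ _ hoc
  · rw [if_pos (by omega), if_pos (by omega)]
    have : t + 1 - j = (t - j) + 1 := by omega
    rw [this]; exact hw.2 _

lemma dl_hon {w : ℕ → A} (hw : Hon R o w) {j : ℕ} (hj : j % 2 = 0) : Hon R o (dl o c j w) := by
  refine ⟨?_, dl_walk hs hoc hw j⟩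
  unfold dl
  by_cases h : j ≤ 0
  · rw [if_pos h]
    have : (0 : ℕ) - j = 0 := by omega
    rw [this, hw.1]
  · rw [if_neg h, if_pos (by omega)]

lemma dl_del {w : ℕ → A} (hw : Hon R o w) {j : ℕ} (hj : j % 2 = 1) : Del R o (dl o c j w) := by
  refine ⟨?_, dl_walk hs hoc hw j⟩
  unfold dl
  by_cases h : j ≤ 1
  · rw [if_pos h]
    have : (1 : ℕ) - j = 0 := by omega
    rw [this, hw.1]
  · rw [if_neg h, if_pos (by omega)]

lemma dl_adj {w : ℕ → A} (hw : Hon R o w) (j m : ℕ) :
    R (dl o c j w m) (dl o c (j + 1) w m) := by
  unfold dl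
  rcases Nat.lt_trichotomy j m with h | h | h
  · rw [if_pos (by omega), if_pos (by omega)]
    have : m - j = (m - (j + 1)) + 1 := by omega
    rw [this]; exact hs _ _ (hw.2 _)
  · subst h
    rw [if_pos le_rfl, if_neg (by omega), if_neg (by omega)]
    rw [Nat.sub_self, hw.1]; exact hoc
  · have a1 : ¬ j ≤ m := by omega
    have a2 : ¬ j + 1 ≤ m := by omega
    rcases Nat.mod_two_eq_zero_or_one (j - m) with h2 | h2
    · have h3 : ¬ (j + 1 - m) % 2 = 0 := by omega
      simp only [if_neg a1, if_neg a2, if_pos h2, if_neg h3]; exact hoc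
    · have h3 : (j + 1 - m) % 2 = 0 := by omega
      have h4 : ¬ (j - m) % 2 = 0 := by omega
      simp only [if_neg a1, if_neg a2, if_neg h4, if_pos h3]; exact hs _ _ hoc

end basic

lemma dl_congr {o c : A} {w w' : ℕ → A} {t : ℕ} (h : ∀ s < t, w s = w' s) {j : ℕ} (hj : 1 ≤ j)
    {s : ℕ} (hst : s ≤ t) : dl o c j w s = dl o c j w' s := by
  unfold dl
  by_cases hjs : j ≤ s
  · rw [if_pos hjs, if_pos hjs]; exact h _ (by omega)
  · rw [if_neg hjs, if_neg hjs]

lemma node_hon {R : A → A → Prop} {o : A} {f : (Fin n → A) → A} (hid : ∀ x, f (fun _ => x) = x)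
    (hcomp : ∀ x y : Fin n → A, (∀ i, R (x i) (y i)) → R (f x) (f y))
    (habs : ∀ (i : Fin n) (b : Fin n → A), (∀ c, c ≠ i → R o (b c)) → b i = o → R o (f b))
    {X : Fin n → ℕ → A} (i : Fin n) (h : ∀ c, c ≠ i → Hon R o (X c))
    (hi : Hon R o (X i) ∨ Del R o (X i)) : Hon R o (node o f X) := by
  refine ⟨rfl, ?_⟩
  have hw : ∀ c t, R (X c t) (X c (t + 1)) := by
    intro c t
    by_cases hc : c = i
    · subst hc
      rcases hi with hi | hi
      · exact hi.2 t
      · exact hi.2 t
    · exact (h c hc).2 t
  intro t
  cases t with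
  | zero =>
    show R o (f fun c => X c 1)
    rcases hi with hi | hi
    · have := hcomp (fun _ => o) (fun c => X c 1) (by
        intro c
        by_cases hc : c = i
        · subst hc
          have := hi.2 0
          rw [hi.1] at this; exact this
        · have := (h c hc).2 0
          rw [(h c hc).1] at this; exact this)
      rwa [hid] at this
    · apply habs i
      · intro c hc
        have := (h c hc).2 0
        rw [(h c hc).1] at this; exact this
      · exact hi.1
  | succ t =>
    exact hcomp _ _ fun c => hw c (t + 1)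

/-- the sequence used in coordinate `i` of `v_i` -/
def aseq (o c : A) (m s : ℕ) (u V : ℕ → A) : ℕ → A :=
  if s ≤ m then dl o c (s + 1) u else dl o c (2 * m + 1 - s) V

/-- the sequence used in the new coordinate -/
def kseq (o c : A) (m s : ℕ) (η e : ℕ → A) : ℕ → A :=
  if s ≤ m then dl o c s η else dl o c (2 * m - s) e

section seqs

variable {R : A → A → Prop} {o c : A} (hs : ∀ x y, R x y → R y x) (hoc : R o c)

include hs hoc

lemma aseq_hon {m s : ℕ} (hsm : s ≤ 2 * m) {u V : ℕ → A} (hu : Hon R o u) (hV : Hon R o V)
    (h : s % 2 = 1) : Hon R o (aseq o c m s u V) := by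
  unfold aseq
  split_ifs
  · exact dl_hon hs hoc hu (by omega)
  · exact dl_hon hs hoc hV (by omega)

lemma aseq_del {m s : ℕ} (hsm : s ≤ 2 * m) {u V : ℕ → A} (hu : Hon R o u) (hV : Hon R o V)
    (h : s % 2 = 0) : Del R o (aseq o c m s u V) := by
  unfold aseq
  split_ifs
  · exact dl_del hs hoc hu (by omega)
  · exact dl_del hs hoc hV (by omega)

lemma kseq_hon {m s : ℕ} (hsm : s ≤ 2 * m) {u V : ℕ → A} (hu : Hon R o u) (hV : Hon R o V)
    (h : s % 2 = 0) : Hon R o (kseq o c m s u V) := by
  unfold kseq
  split_ifs
  · exact dl_hon hs hoc hu (by omega)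
  · exact dl_hon hs hoc hV (by omega)

lemma kseq_del {m s : ℕ} (hsm : s ≤ 2 * m) {u V : ℕ → A} (hu : Hon R o u) (hV : Hon R o V)
    (h : s % 2 = 1) : Del R o (kseq o c m s u V) := by
  unfold kseq
  split_ifs
  · exact dl_del hs hoc hu (by omega)
  · exact dl_del hs hoc hV (by omega)

lemma aseq_adj {m s : ℕ} (hsm : s + 1 ≤ 2 * m) {u V : ℕ → A} (hu : Hon R o u) (hV : Hon R o V) :
    R (aseq o c m s u V m) (aseq o c m (s + 1) u V m) := by
  unfold aseq
  rcases Nat.lt_trichotomy s m with h | h | h
  · rw [if_pos (by omega), if_pos (by omega)]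
    exact dl_adj hs hoc hu _ _
  · subst h
    rw [if_pos (by omega), if_neg (by omega)]
    have h1 : dl o c (s + 1) u s = c := by
      unfold dl
      rw [if_neg (by omega), if_neg (by omega)]
    have h2 : dl o c (2 * s + 1 - (s + 1)) V s = o := by
      unfold dl
      rw [if_pos (by omega)]
      have : s - (2 * s + 1 - (s + 1)) = 0 := by omega
      rw [this, hV.1]
    rw [h1, h2]; exact hs _ _ hoc
  · rw [if_neg (by omega), if_neg (by omega)]
    have : 2 * m + 1 - s = (2 * m + 1 - (s + 1)) + 1 := by omega
    rw [this]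
    exact hs _ _ (dl_adj hs hoc hV _ _)

lemma kseq_adj {m s : ℕ} (hsm : s + 1 ≤ 2 * m) {u V : ℕ → A} (hu : Hon R o u) (hV : Hon R o V) :
    R (kseq o c m s u V m) (kseq o c m (s + 1) u V m) := by
  unfold kseq
  rcases Nat.lt_trichotomy s m with h | h | h
  · rw [if_pos (by omega), if_pos (by omega)]
    exact dl_adj hs hoc hu _ _
  · subst h
    rw [if_pos (by omega), if_neg (by omega)]
    have h1 : dl o c s u s = o := by
      unfold dl
      rw [if_pos le_rfl, Nat.sub_self, hu.1]
    have h2 : dl o c (2 * s - (s + 1)) V s = V 1 := by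
      unfold dl
      rw [if_pos (by omega)]
      congr 1
      omega
    rw [h1, h2]
    have := hV.2 0
    rwa [hV.1] at this
  · rw [if_neg (by omega), if_neg (by omega)]
    have : 2 * m - s = (2 * m - (s + 1)) + 1 := by omega
    rw [this]
    exact hs _ _ (dl_adj hs hoc hV _ _)

end seqs

/-- the tower; `tower r` is stage `s = 2 m - r` -/
def tower (o c : A) (f : (Fin n → A) → A) (e g : ℕ → A) (m : ℕ) (J : Finset (Fin n)) (k : Fin n)
    (V : Fin n → ℕ → A) (u : Fin n → ℕ → A) (η : ℕ → A) : ℕ → Fin n → ℕ → A
  | 0 => V
  | r + 1 => fun i => node o f fun j =>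
      if j = i then aseq o c m (2 * m - (r + 1)) (u i) (V i)
      else if j = k then kseq o c m (2 * m - (r + 1)) η e
      else if j ∈ J then tower o c f e g m J k V u η r j
      else if (2 * m - (r + 1)) % 2 = 0 then e else g

/-- the new `η` -/
def newEta (o c : A) (f : (Fin n → A) → A) (e g : ℕ → A) (m : ℕ) (J : Finset (Fin n)) (k : Fin n)
    (V : Fin n → ℕ → A) (u : Fin n → ℕ → A) (η : ℕ → A) : ℕ → A :=
  node o f fun j =>
    if j = k then dl o c 2 (u k)
    else if j ∈ J then tower o c f e g m J k V u η (2 * m - 2) j
    else g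

/-- the new `u` -/
def newU (o c : A) (f : (Fin n → A) → A) (e g : ℕ → A) (m : ℕ) (J : Finset (Fin n)) (k : Fin n)
    (V : Fin n → ℕ → A) (u : Fin n → ℕ → A) (η : ℕ → A) : Fin n → ℕ → A := fun i =>
  node o f fun j =>
    if j = i then dl o c 1 (u i)
    else if j = k then newEta o c f e g m J k V u η
    else if j ∈ J then tower o c f e g m J k V u η (2 * m - 1) j
    else e

section main

variable {R : A → A → Prop} {o c : A} {f : (Fin n → A) → A} {e g : ℕ → A} {m : ℕ}
  (hs : ∀ x y, R x y → R y x) (hoc : R o c) (hid : ∀ x, f (fun _ => x) = x)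
  (hcomp : ∀ x y : Fin n → A, (∀ i, R (x i) (y i)) → R (f x) (f y))
  (habs : ∀ (i : Fin n) (b : Fin n → A), (∀ c, c ≠ i → R o (b c)) → b i = o → R o (f b))
  (he : Hon R o e) (hg : Hon R o g) (hm : 1 ≤ m) (heg : R (e m) (g m))
  {J : Finset (Fin n)} {k : Fin n} (hk : k ∉ J)
  {V : Fin n → ℕ → A} (hV : ∀ i ∈ J, Hon R o (V i))

include hs hoc hid hcomp habs he hg hk hV

lemma tower_hon {u : Fin n → ℕ → A} {η : ℕ → A} (hu : ∀ i, Hon R o (u i)) (hη : Hon R o η) :
    ∀ r, r ≤ 2 * m → ∀ i ∈ J, Hon R o (tower o c f e g m J k V u η r i) := by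
  intro r
  induction r with
  | zero => intro _ i hi; exact hV i hi
  | succ r ih =>
    intro hr i hi
    have hik : i ≠ k := fun h => hk (h ▸ hi)
    have hs1 : 2 * m - (r + 1) ≤ 2 * m := Nat.sub_le _ _
    rcases Nat.mod_two_eq_zero_or_one (2 * m - (r + 1)) with h2 | h2
    · apply node_hon hid hcomp habs i
      · intro j hj
        simp only [if_neg hj]
        by_cases hjk : j = k
        · simp only [if_pos hjk]
          exact kseq_hon hs hoc hs1 hη he h2
        · simp only [if_neg hjk]
          by_cases hjJ : j ∈ J
          · simp only [if_pos hjJ]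
            exact ih (by omega) j hjJ
          · simp only [if_neg hjJ, if_pos h2]; exact he
      · right
        simp only [if_true]
        exact aseq_del hs hoc hs1 (hu i) (hV i hi) h2
    · apply node_hon hid hcomp habs k
      · intro j hj
        by_cases hji : j = i
        · simp only [if_pos hji]
          exact aseq_hon hs hoc hs1 (hu i) (hV i hi) h2
        · simp only [if_neg hji, if_neg hj]
          by_cases hjJ : j ∈ J
          · simp only [if_pos hjJ]
            exact ih (by omega) j hjJ
          · have : ¬ ((2 * m - (r + 1)) % 2 = 0) := by omega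
            simp only [if_neg hjJ, if_neg this]; exact hg
      · right
        simp only [if_neg (Ne.symm hik), if_true]
        exact kseq_del hs hoc hs1 hη he h2

lemma newEta_hon {u : Fin n → ℕ → A} {η : ℕ → A} (hu : ∀ i, Hon R o (u i)) (hη : Hon R o η) :
    Hon R o (newEta o c f e g m J k V u η) := by
  have ht := tower_hon (m := m) hs hoc hid hcomp habs he hg hk hV hu hη
  apply node_hon hid hcomp habs k
  · intro j hj
    simp only [if_neg hj]
    by_cases hjJ : j ∈ J
    · simp only [if_pos hjJ]; exact ht _ (Nat.sub_le _ _) j hjJ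
    · simp only [if_neg hjJ]; exact hg
  · left
    simp only [if_true]
    exact dl_hon hs hoc (hu k) rfl

lemma newU_hon {u : Fin n → ℕ → A} {η : ℕ → A} (hu : ∀ i, Hon R o (u i)) (hη : Hon R o η)
    (i : Fin n) : Hon R o (newU o c f e g m J k V u η i) := by
  have ht := tower_hon (m := m) hs hoc hid hcomp habs he hg hk hV hu hη
  have hη' := newEta_hon (m := m) hs hoc hid hcomp habs he hg hk hV hu hη
  apply node_hon hid hcomp habs i
  · intro j hj
    simp only [if_neg hj]
    by_cases hjk : j = k
    · simp only [if_pos hjk]; exact hη'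
    · simp only [if_neg hjk]
      by_cases hjJ : j ∈ J
      · simp only [if_pos hjJ]; exact ht _ (Nat.sub_le _ _) j hjJ
      · simp only [if_neg hjJ]; exact he
  · right
    simp only [if_true]
    exact dl_del hs hoc (hu i) rfl

omit hs hoc hid hcomp habs he hg hk hV

/-- causality of the tower -/
lemma tower_congr {u u' : Fin n → ℕ → A} {η η' : ℕ → A} {t : ℕ} (hu : ∀ i, ∀ s < t, u i s = u' i s)
    (hη : ∀ s < t, η s = η' s) : ∀ r, r + 1 ≤ 2 * m → ∀ i, ∀ s ≤ t,
      tower o c f e g m J k V u η r i s = tower o c f e g m J k V u' η' r i s := by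
  intro r
  induction r with
  | zero => intro _ i s _; rfl
  | succ r ih =>
    intro hr i s hst
    cases s with
    | zero => rfl
    | succ s =>
      show f _ = f _
      congr 1
      funext j
      by_cases hji : j = i
      · simp only [if_pos hji]
        unfold aseq
        split_ifs with h
        · exact dl_congr (hu i) (by omega) hst
        · rfl
      · simp only [if_neg hji]
        by_cases hjk : j = k
        · simp only [if_pos hjk]
          unfold kseq
          split_ifs with h
          · exact dl_congr hη (by omega) hst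
          · rfl
        · simp only [if_neg hjk]
          by_cases hjJ : j ∈ J
          · simp only [if_pos hjJ]; exact ih (by omega) j _ hst
          · simp only [if_neg hjJ]

include hm

lemma newEta_congr {u u' : Fin n → ℕ → A} {η η' : ℕ → A} {t : ℕ}
    (hu : ∀ i, ∀ s < t, u i s = u' i s) (hη : ∀ s < t, η s = η' s) : ∀ s ≤ t,
      newEta o c f e g m J k V u η s = newEta o c f e g m J k V u' η' s := by
  intro s hst
  cases s with
  | zero => rfl
  | succ s =>
    show f _ = f _
    congr 1
    funext j
    by_cases hjk : j = k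
    · simp only [if_pos hjk]
      exact dl_congr (hu k) (by omega) hst
    · simp only [if_neg hjk]
      by_cases hjJ : j ∈ J
      · simp only [if_pos hjJ]; exact tower_congr hu hη _ (by omega) j _ hst
      · simp only [if_neg hjJ]

lemma newU_congr {u u' : Fin n → ℕ → A} {η η' : ℕ → A} {t : ℕ}
    (hu : ∀ i, ∀ s < t, u i s = u' i s) (hη : ∀ s < t, η s = η' s) (i : Fin n) : ∀ s ≤ t,
      newU o c f e g m J k V u η i s = newU o c f e g m J k V u' η' i s := by
  intro s hst
  cases s with
  | zero => rfl
  | succ s =>
    show f _ = f _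
    congr 1
    funext j
    by_cases hji : j = i
    · simp only [if_pos hji]
      exact dl_congr (hu i) (by omega) hst
    · simp only [if_neg hji]
      by_cases hjk : j = k
      · simp only [if_pos hjk]
        exact newEta_congr hm hu hη _ hst
      · simp only [if_neg hjk]
        by_cases hjJ : j ∈ J
        · simp only [if_pos hjJ]; exact tower_congr hu hη _ (by omega) j _ hst
        · simp only [if_neg hjJ]

include hs hoc hid hcomp habs he hg hk hV

/-- the fixed point up to time `m` -/
lemma exists_fix : ∃ (u : Fin n → ℕ → A) (η : ℕ → A), (∀ i, Hon R o (u i)) ∧ Hon R o η ∧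
    (∀ i, ∀ s ≤ m, u i s = newU o c f e g m J k V u η i s) ∧
    (∀ s ≤ m, η s = newEta o c f e g m J k V u η s) := by
  have key : ∀ N : ℕ, ∃ (u : Fin n → ℕ → A) (η : ℕ → A), (∀ i, Hon R o (u i)) ∧ Hon R o η ∧
      (∀ i, ∀ s < N, u i s = newU o c f e g m J k V u η i s) ∧
      (∀ s < N, η s = newEta o c f e g m J k V u η s) := by
    intro N
    induction N with
    | zero => exact ⟨fun _ => e, e, fun _ => he, he, fun _ s h => absurd h (by omega),
        fun s h => absurd h (by omega)⟩
    | succ N ih =>
      obtain ⟨u, η, h1, h2, h3, h4⟩ := ih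
      refine ⟨newU o c f e g m J k V u η, newEta o c f e g m J k V u η,
        newU_hon (m := m) hs hoc hid hcomp habs he hg hk hV h1 h2,
        newEta_hon (m := m) hs hoc hid hcomp habs he hg hk hV h1 h2, ?_, ?_⟩
      · intro i s hs'
        exact newU_congr hm h3 h4 i s (by omega)
      · intro s hs'
        exact newEta_congr hm h3 h4 s (by omega)
  obtain ⟨u, η, h1, h2, h3, h4⟩ := key (m + 1)
  exact ⟨u, η, h1, h2, fun i s h => h3 i s (by omega), fun s h => h4 s (by omega)⟩

end main

/-- a solution for the set `J` of active coordinates -/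
def Sol (R : A → A → Prop) (o : A) (f : (Fin n → A) → A) (e : ℕ → A) (m : ℕ)
    (J : Finset (Fin n)) : Prop :=
  ∃ (v : Fin n → ℕ → A) (q : Fin n → Fin n → A), (∀ i ∈ J, Hon R o (v i)) ∧
    (∀ i ∈ J, ∀ j ∈ J, i ≠ j → R (q i j) (v j m)) ∧
    (∀ i ∈ J, v i m = f fun j => if j = i then v i (m - 1) else if j ∈ J then q i j else e m)

section final

variable {R : A → A → Prop} {o c : A} {f : (Fin n → A) → A} {e g : ℕ → A} {m : ℕ}
  (hs : ∀ x y, R x y → R y x) (hoc : R o c) (hid : ∀ x, f (fun _ => x) = x)
  (hcomp : ∀ x y : Fin n → A, (∀ i, R (x i) (y i)) → R (f x) (f y))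
  (habs : ∀ (i : Fin n) (b : Fin n → A), (∀ c, c ≠ i → R o (b c)) → b i = o → R o (f b))
  (he : Hon R o e) (hg : Hon R o g) (hm : 1 ≤ m) (heg : R (e m) (g m))

lemma node_at (o : A) (f : (Fin n → A) → A) (X : Fin n → ℕ → A) {m : ℕ} (hm : 1 ≤ m) :
    node o f X m = f fun c => X c m := by
  cases m with
  | zero => omega
  | succ m => rfl

include hs hoc hid hcomp habs he hg hm heg

lemma sol_step {J : Finset (Fin n)} {k : Fin n} (hk : k ∉ J) (h : Sol R o f e m J) :
    Sol R o f e m (insert k J) := by
  obtain ⟨V, Q, hV, hQ, hVm⟩ := h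
  obtain ⟨u, η, hu, hη, hfu, hfη⟩ :=
    exists_fix (c := c) hs hoc hid hcomp habs he hg hm hk hV
  have heg' : R (g m) (e m) := hs _ _ heg
  -- stage adjacency
  have C : ∀ r, r + 2 ≤ 2 * m → ∀ i ∈ J,
      R (tower o c f e g m J k V u η (r + 1) i m) (tower o c f e g m J k V u η r i m) := by
    intro r
    induction r with
    | zero =>
      intro hr i hi
      have hik : i ≠ k := fun h => hk (h ▸ hi)
      show R (node o f _ m) (V i m)
      rw [node_at o f _ hm, hVm i hi]
      apply hcomp
      intro j
      by_cases hji : j = i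
      · simp only [if_pos hji]
        -- aseq (2m-1) at m versus V i (m-1)
        unfold aseq dl
        by_cases hm1 : m = 1
        · subst hm1
          simp only [show (2 * 1 - (0 + 1) ≤ 1) from by norm_num, if_true]
          rw [if_neg (by norm_num), if_neg (by norm_num), (hV i hi).1]
          exact hs _ _ hoc
        · rw [if_neg (by omega), if_pos (by omega)]
          have h1 : m - (2 * m + 1 - (2 * m - (0 + 1))) = m - 2 := by omega
          have h2 : m - 1 = (m - 2) + 1 := by omega
          rw [h1, h2]
          exact (hV i hi).2 _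
      · simp only [if_neg hji]
        by_cases hjk : j = k
        · subst hjk
          simp only [if_true, if_neg hk]
          unfold kseq dl
          by_cases hm1 : m = 1
          · subst hm1
            simp only [show (2 * 1 - (0 + 1) ≤ 1) from by norm_num, if_true]
            have := he.2 0
            rw [he.1] at this
            rw [show (1 - (2 * 1 - (0 + 1))) = 0 from by norm_num, hη.1]
            exact this
          · rw [if_neg (by omega), if_pos (by omega)]
            have h1 : m - (2 * m - (2 * m - (0 + 1))) = m - 1 := by omega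
            have h2 : m = (m - 1) + 1 := by omega
            rw [h1]
            have := he.2 (m - 1)
            rwa [← h2] at this
        · simp only [if_neg hjk]
          by_cases hjJ : j ∈ J
          · simp only [if_pos hjJ]
            exact hs _ _ (hQ i hi j hjJ (Ne.symm hji))
          · simp only [if_neg hjJ]
            rw [if_neg (by omega)]
            exact heg'
    | succ r ih =>
      intro hr i hi
      have hik : i ≠ k := fun h => hk (h ▸ hi)
      show R (node o f _ m) (node o f _ m)
      rw [node_at o f _ hm, node_at o f _ hm]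
      apply hcomp
      intro j
      have hsucc : 2 * m - (r + 1) = (2 * m - (r + 1 + 1)) + 1 := by omega
      by_cases hji : j = i
      · simp only [if_pos hji]
        rw [hsucc]
        exact aseq_adj hs hoc (by omega) (hu i) (hV i hi)
      · simp only [if_neg hji]
        by_cases hjk : j = k
        · simp only [if_pos hjk]
          rw [hsucc]
          exact kseq_adj hs hoc (by omega) hη he
        · simp only [if_neg hjk]
          by_cases hjJ : j ∈ J
          · simp only [if_pos hjJ]
            exact ih (by omega) j hjJ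
          · simp only [if_neg hjJ]
            rcases Nat.mod_two_eq_zero_or_one (2 * m - (r + 1)) with h2 | h2
            · rw [if_neg (by omega), if_pos h2]; exact heg'
            · rw [if_pos (by omega), if_neg (by omega)]; exact heg
  have C1 : ∀ i ∈ J, R (tower o c f e g m J k V u η (2 * m - 1) i m)
      (tower o c f e g m J k V u η (2 * m - 2) i m) := by
    intro i hi
    have := C (2 * m - 2) (by omega) i hi
    rwa [show 2 * m - 2 + 1 = 2 * m - 1 from by omega] at this
  have hum : ∀ i, u i m = f fun j =>
      if j = i then u i (m - 1)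
      else if j = k then η m
      else if j ∈ J then tower o c f e g m J k V u η (2 * m - 1) j m
      else e m := by
    intro i
    rw [hfu i m le_rfl]
    unfold newU
    rw [node_at o f _ hm]
    congr 1
    funext j
    by_cases hji : j = i
    · simp only [if_pos hji]
      unfold dl
      rw [if_pos hm]
    · simp only [if_neg hji]
      by_cases hjk : j = k
      · simp only [if_pos hjk]
        exact (hfη m le_rfl).symm
      · simp only [if_neg hjk]
        by_cases hjJ : j ∈ J
        · simp only [if_pos hjJ]
        · simp only [if_neg hjJ]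
  have hdl2 : ∀ i, R (u i (m - 1)) (dl o c 2 (u i) m) := by
    intro i
    have := dl_adj (c := c) hs hoc (hu i) 1 m
    have h1 : dl o c 1 (u i) m = u i (m - 1) := by
      unfold dl; rw [if_pos hm]
    rwa [h1] at this
  have C0 : ∀ i ∈ J, R (u i m) (tower o c f e g m J k V u η (2 * m - 1) i m) := by
    intro i hi
    have hik : i ≠ k := fun h => hk (h ▸ hi)
    rw [hum i]
    have h1 : 2 * m - 1 = (2 * m - 2) + 1 := by omega
    rw [h1]
    show R _ (node o f _ m)
    rw [node_at o f _ hm]
    apply hcomp
    intro j
    have hst : 2 * m - (2 * m - 2 + 1) = 1 := by omega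
    by_cases hji : j = i
    · simp only [if_pos hji]
      rw [hst]
      unfold aseq
      rw [if_pos hm]
      exact hdl2 i
    · simp only [if_neg hji]
      by_cases hjk : j = k
      · simp only [if_pos hjk]
        rw [hst]
        unfold kseq
        rw [if_pos hm]
        have h2 : dl o c 1 η m = η (m - 1) := by
          unfold dl; rw [if_pos hm]
        rw [h2]
        have := hη.2 (m - 1)
        rw [show m - 1 + 1 = m from by omega] at this
        exact hs _ _ this
      · simp only [if_neg hjk]
        by_cases hjJ : j ∈ J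
        · simp only [if_pos hjJ]
          have := C1 j hjJ
          rwa [h1] at this
        · simp only [if_neg hjJ]
          rw [hst, if_neg (by norm_num)]
          exact heg
  have Cη : R (η m) (u k m) := by
    rw [hum k, hfη m le_rfl]
    unfold newEta
    rw [node_at o f _ hm]
    apply hcomp
    intro j
    by_cases hjk : j = k
    · simp only [if_pos hjk]
      exact hs _ _ (hdl2 k)
    · simp only [if_neg hjk]
      by_cases hjJ : j ∈ J
      · simp only [if_pos hjJ]
        exact hs _ _ (C1 j hjJ)
      · simp only [if_neg hjJ]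
        exact heg'
  refine ⟨u, fun i j => if j = k then η m else tower o c f e g m J k V u η (2 * m - 1) j m,
    fun i _ => hu i, ?_, ?_⟩
  · intro i hi j hj hij
    by_cases hjk : j = k
    · subst hjk
      simp only [if_true]; exact Cη
    · simp only [if_neg hjk]
      exact hs _ _ (C0 j (Finset.mem_of_mem_insert_of_ne hj hjk))
  · intro i hi
    rw [hum i]
    congr 1
    funext j
    by_cases hji : j = i
    · simp only [if_pos hji]
    · simp only [if_neg hji]
      by_cases hjk : j = k
      · simp only [if_pos hjk, if_pos (show j ∈ insert k J by rw [hjk]; exact Finset.mem_insert_self k J)]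
      · simp only [if_neg hjk]
        by_cases hjJ : j ∈ J
        · rw [if_pos hjJ, if_pos (Finset.mem_insert_of_mem hjJ)]
        · rw [if_neg hjJ, if_neg (by simp [hjk, hjJ])]

theorem sol_all (J : Finset (Fin n)) : Sol R o f e m J := by
  classical
  induction J using Finset.induction_on with
  | empty => exact ⟨fun _ => e, fun _ _ => o, by simp, by simp, by simp⟩
  | insert k J hk ih => exact sol_step hs hoc hid hcomp habs he hg hm heg hk ih

theorem loop_of_walks : ∃ x, R x x := by
  obtain ⟨v, q, hv, hq, hvm⟩ := sol_all (c := c) hs hoc hid hcomp habs he hg hm heg Finset.univ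
  refine ⟨f fun i => v i m, ?_⟩
  have h : ∀ i, R (f fun i => v i m) (v i m) := by
    intro i
    rw [hvm i (Finset.mem_univ i)]
    apply hcomp
    intro j
    by_cases hji : j = i
    · subst hji
      simp only [if_true]
      have := (hv j (Finset.mem_univ j)).2 (m - 1)
      rw [show m - 1 + 1 = m from by omega] at this
      exact hs _ _ this
    · simp only [if_neg hji, if_pos (Finset.mem_univ j)]
      exact hs _ _ (hq i (Finset.mem_univ i) j (Finset.mem_univ j) (Ne.symm hji))
  have := hcomp (fun _ => f fun i => v i m) (fun i => v i m) h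
  rwa [hid] at this

end final

end Pool.Agent.U337.LLL
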